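import Mathlib

/-!
# Fillings of Ferrers boards

A board is a lower set `D` of cells (column, row). For finite sets `C` of columns and `R` of rows we
count the sets of points in `D` with exactly one point in every column of `C` and every row of `R`.
-/

set_option autoImplicit false

namespace Pool.Agent.V7H25.Wilf

open Finset Classical

/-- the sets of points with one point in each column of `C` and each row of `R` -/
noncomputable def Fill (C R : Finset ℕ) : Finset (Finset (ℕ × ℕ)) :=
  (C ×ˢ R).powerset.filter fun T =>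
    Set.InjOn Prod.fst (T : Set (ℕ × ℕ)) ∧ Set.InjOn Prod.snd (T : Set (ℕ × ℕ)) ∧
      T.image Prod.fst = C ∧ T.image Prod.snd = R

theorem mem_Fill {C R : Finset ℕ} {T : Finset (ℕ × ℕ)} :
    T ∈ Fill C R ↔ Set.InjOn Prod.fst (T : Set (ℕ × ℕ)) ∧ Set.InjOn Prod.snd (T : Set (ℕ × ℕ)) ∧
      T.image Prod.fst = C ∧ T.image Prod.snd = R := by
  unfold Fill
  rw [Finset.mem_filter, and_iff_right_iff_imp]
  rintro ⟨-, -, h3, h4⟩
  rw [Finset.mem_powerset]
  intro p hp
  rw [Finset.mem_product, ← h3, ← h4]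
  exact ⟨Finset.mem_image_of_mem _ hp, Finset.mem_image_of_mem _ hp⟩

/-- every point has less than `m` points to the south-west -/
def SW (m : ℕ) (T : Finset (ℕ × ℕ)) : Prop :=
  ∀ p ∈ T, (T.filter fun q => q.1 < p.1 ∧ q.2 < p.2).card < m

/-- every point `p` has less than `m` points `q` to the south-east with the corner `(q.1, p.2)` in
`D` -/
def FI (m : ℕ) (D : Set (ℕ × ℕ)) (T : Finset (ℕ × ℕ)) : Prop :=
  ∀ p ∈ T, (T.filter fun q => p.1 < q.1 ∧ q.2 < p.2 ∧ (q.1, p.2) ∈ D).card < m

theorem rank_lt (m : ℕ) (S : Finset ℕ) :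
    (S.filter fun c => (S.filter fun c' => c' < c).card < m).card = min m S.card := by
  induction S using Finset.induction_on_max with
  | empty => simp
  | insert a s ha ih =>
    have hns : a ∉ s := fun h => lt_irrefl _ (ha a h)
    have h1 : (insert a s).filter (fun c' => c' < a) = s := by
      ext x
      simp only [Finset.mem_filter, Finset.mem_insert]
      constructor
      · rintro ⟨h | h, h2⟩
        · omega
        · exact h
      · exact fun h => ⟨Or.inr h, ha x h⟩
    have h2 : ∀ c ∈ s, (insert a s).filter (fun c' => c' < c) = s.filter (fun c' => c' < c) := by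
      intro c hc
      rw [Finset.filter_insert, if_neg]
      exact not_lt.2 (ha c hc).le
    have h3 : s.filter (fun c => ((insert a s).filter fun c' => c' < c).card < m) =
        s.filter (fun c => (s.filter fun c' => c' < c).card < m) :=
      Finset.filter_congr fun c hc => by rw [h2 c hc]
    rw [Finset.filter_insert, h1, h3, Finset.card_insert_of_notMem hns]
    split_ifs with h
    · rw [Finset.card_insert_of_notMem (fun h => hns (Finset.mem_of_mem_filter _ h)), ih]
      omega
    · rw [ih]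
      omega

theorem rank_gt (m : ℕ) (S : Finset ℕ) :
    (S.filter fun c => (S.filter fun c' => c < c').card < m).card = min m S.card := by
  induction S using Finset.induction_on_min with
  | empty => simp
  | insert a s ha ih =>
    have hns : a ∉ s := fun h => lt_irrefl _ (ha a h)
    have h1 : (insert a s).filter (fun c' => a < c') = s := by
      ext x
      simp only [Finset.mem_filter, Finset.mem_insert]
      constructor
      · rintro ⟨h | h, h2⟩
        · omega
        · exact h
      · exact fun h => ⟨Or.inr h, ha x h⟩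
    have h2 : ∀ c ∈ s, (insert a s).filter (fun c' => c < c') = s.filter (fun c' => c < c') := by
      intro c hc
      rw [Finset.filter_insert, if_neg]
      exact not_lt.2 (ha c hc).le
    have h3 : s.filter (fun c => ((insert a s).filter fun c' => c < c').card < m) =
        s.filter (fun c => (s.filter fun c' => c < c').card < m) :=
      Finset.filter_congr fun c hc => by rw [h2 c hc]
    rw [Finset.filter_insert, h1, h3, Finset.card_insert_of_notMem hns]
    split_ifs with h
    · rw [Finset.card_insert_of_notMem (fun h => hns (Finset.mem_of_mem_filter _ h)), ih]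
      omega
    · rw [ih]
      omega

theorem notMem_of_Fill {C R : Finset ℕ} {T : Finset (ℕ × ℕ)} {c r : ℕ}
    (hT : T ∈ Fill (C.erase c) R) : (c, r) ∉ T := by
  intro h
  have := (mem_Fill.1 hT).2.2.1
  have h2 : c ∈ T.image Prod.fst := Finset.mem_image_of_mem Prod.fst h
  rw [this] at h2
  exact (Finset.mem_erase.1 h2).1 rfl

theorem insert_mem_Fill {C R : Finset ℕ} {T : Finset (ℕ × ℕ)} {c r : ℕ} (hc : c ∈ C) (hr : r ∉ R)
    (hT : T ∈ Fill (C.erase c) R) : insert (c, r) T ∈ Fill C (insert r R) := by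
  obtain ⟨h1, h2, h3, h4⟩ := mem_Fill.1 hT
  have hcT : ∀ q ∈ T, q.1 ≠ c := by
    intro q hq h
    have : q.1 ∈ T.image Prod.fst := Finset.mem_image_of_mem Prod.fst hq
    rw [h3] at this
    exact (Finset.mem_erase.1 this).1 h
  have hrT : ∀ q ∈ T, q.2 ≠ r := by
    intro q hq h
    have : q.2 ∈ T.image Prod.snd := Finset.mem_image_of_mem Prod.snd hq
    rw [h4] at this
    exact hr (h ▸ this)
  rw [mem_Fill]
  refine ⟨?_, ?_, ?_, ?_⟩
  · rw [Finset.coe_insert, Set.injOn_insert (fun h => hcT _ h rfl)]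
    refine ⟨h1, ?_⟩
    rintro ⟨q, hq, h⟩
    exact hcT q hq h
  · rw [Finset.coe_insert, Set.injOn_insert (fun h => hcT _ h rfl)]
    refine ⟨h2, ?_⟩
    rintro ⟨q, hq, h⟩
    exact hrT q hq h
  · rw [Finset.image_insert, h3, Finset.insert_erase hc]
  · rw [Finset.image_insert, h4]

theorem erase_mem_Fill {C R : Finset ℕ} {T : Finset (ℕ × ℕ)} {c r : ℕ} (hr : r ∉ R)
    (hT : T ∈ Fill C (insert r R)) (h : (c, r) ∈ T) : T.erase (c, r) ∈ Fill (C.erase c) R := by
  obtain ⟨h1, h2, h3, h4⟩ := mem_Fill.1 hT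
  rw [mem_Fill]
  refine ⟨h1.mono (by simp), h2.mono (by simp), ?_, ?_⟩
  · ext x
    simp only [Finset.mem_image, Finset.mem_erase]
    constructor
    · rintro ⟨q, ⟨hq1, hq2⟩, rfl⟩
      refine ⟨?_, h3 ▸ Finset.mem_image_of_mem _ hq2⟩
      intro hqc
      exact hq1 (h1 hq2 h hqc)
    · rintro ⟨hx, hxC⟩
      rw [← h3] at hxC
      obtain ⟨q, hq, rfl⟩ := Finset.mem_image.1 hxC
      exact ⟨q, ⟨fun h => hx (by rw [h]), hq⟩, rfl⟩
  · ext x
    simp only [Finset.mem_image, Finset.mem_erase]
    constructor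
    · rintro ⟨q, ⟨hq1, hq2⟩, rfl⟩
      have : q.2 ∈ insert r R := h4 ▸ Finset.mem_image_of_mem _ hq2
      rcases Finset.mem_insert.1 this with h5 | h5
      · exact absurd (h2 hq2 h h5) hq1
      · exact h5
    · intro hx
      have : x ∈ T.image Prod.snd := by rw [h4]; exact Finset.mem_insert_of_mem hx
      obtain ⟨q, hq, rfl⟩ := Finset.mem_image.1 this
      refine ⟨q, ⟨fun h => hr (by rw [h] at hx; exact hx), hq⟩, rfl⟩

/-- sort the fillings by the column of the point in the row `r` -/
theorem card_Fill_insert {C R : Finset ℕ} {r : ℕ} (hr : r ∉ R) (G : Finset (ℕ × ℕ) → Prop)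
    [DecidablePred G] :
    ((Fill C (insert r R)).filter G).card =
      ∑ c ∈ C, ((Fill (C.erase c) R).filter fun T => G (insert (c, r) T)).card := by
  have h : (Fill C (insert r R)).filter G = C.biUnion fun c =>
      ((Fill (C.erase c) R).filter fun T => G (insert (c, r) T)).image (insert (c, r)) := by
    ext T
    simp only [Finset.mem_filter, Finset.mem_biUnion, Finset.mem_image]
    constructor
    · rintro ⟨hT, hG⟩
      have h4 := (mem_Fill.1 hT).2.2.2
      have h3 := (mem_Fill.1 hT).2.2.1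
      have hr' : r ∈ T.image Prod.snd := by rw [h4]; exact Finset.mem_insert_self _ _
      obtain ⟨⟨c, r'⟩, hq, hqr⟩ := Finset.mem_image.1 hr'
      simp only at hqr
      subst hqr
      refine ⟨c, h3 ▸ Finset.mem_image_of_mem Prod.fst hq, T.erase (c, r'),
        ⟨erase_mem_Fill hr hT hq, ?_⟩, ?_⟩
      · rw [Finset.insert_erase hq]; exact hG
      · rw [Finset.insert_erase hq]
    · rintro ⟨c, hc, T', ⟨hT', hG⟩, rfl⟩
      exact ⟨insert_mem_Fill hc hr hT', hG⟩
  rw [h, Finset.card_biUnion]
  · refine Finset.sum_congr rfl fun c _ => ?_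
    refine Finset.card_image_of_injOn ?_
    intro T1 h1 T2 h2 h12
    rw [Finset.mem_coe, Finset.mem_filter] at h1 h2
    have e1 := Finset.erase_insert (notMem_of_Fill (r := r) h1.1)
    have e2 := Finset.erase_insert (notMem_of_Fill (r := r) h2.1)
    rw [← e1, ← e2, h12]
  · intro c hc c' hc' hne
    rw [Function.onFun, Finset.disjoint_left]
    intro T hT hT'
    simp only [Finset.mem_image, Finset.mem_filter] at hT hT'
    obtain ⟨T1, ⟨h1, -⟩, rfl⟩ := hT
    obtain ⟨T2, ⟨h2, -⟩, h12⟩ := hT'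
    have h3 := insert_mem_Fill hc hr h1
    have h4 : (c, r) ∈ insert (c, r) T1 := Finset.mem_insert_self _ _
    have h5 : (c', r) ∈ insert (c, r) T1 := by rw [← h12]; exact Finset.mem_insert_self _ _
    exact hne (by simpa using congrArg Prod.fst ((mem_Fill.1 h3).2.1 h4 h5 rfl))

theorem card_filter_fst {C R : Finset ℕ} {T : Finset (ℕ × ℕ)} (hT : T ∈ Fill C R)
    (P : ℕ → Prop) [DecidablePred P] : (T.filter fun q => P q.1).card = (C.filter P).card := by
  obtain ⟨h1, h2, h3, h4⟩ := mem_Fill.1 hT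
  rw [← h3, Finset.filter_image, Finset.card_image_of_injOn]
  exact h1.mono fun q hq => (Finset.mem_filter.1 hq).1

theorem sw_insert {m : ℕ} {C R : Finset ℕ} {T : Finset (ℕ × ℕ)} {c r : ℕ}
    (hr : ∀ x ∈ R, x < r) (hT : T ∈ Fill (C.erase c) R) :
    SW m (insert (c, r) T) ↔ (C.filter fun c' => c' < c).card < m ∧ SW m T := by
  have hlt : ∀ q ∈ T, q.2 < r := fun q hq =>
    hr _ ((mem_Fill.1 hT).2.2.2 ▸ Finset.mem_image_of_mem _ hq)
  have h1 : (insert (c, r) T).filter (fun q => q.1 < (c, r).1 ∧ q.2 < (c, r).2) =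
      T.filter (fun q => q.1 < c) := by
    ext q
    simp only [Finset.mem_filter, Finset.mem_insert]
    constructor
    · rintro ⟨h | h, h2, h3⟩
      · subst h; simp at h2
      · exact ⟨h, h2⟩
    · rintro ⟨h, h2⟩
      exact ⟨Or.inr h, h2, hlt q h⟩
  have h1' : (T.filter (fun q => q.1 < c)).card = (C.filter fun c' => c' < c).card := by
    rw [card_filter_fst hT (fun x => x < c)]
    congr 1
    ext x
    simp only [Finset.mem_filter, Finset.mem_erase]
    constructor
    · rintro ⟨⟨_, h⟩, h2⟩; exact ⟨h, h2⟩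
    · rintro ⟨h, h2⟩; exact ⟨⟨by omega, h⟩, h2⟩
  have h2 : ∀ p ∈ T, (insert (c, r) T).filter (fun q => q.1 < p.1 ∧ q.2 < p.2) =
      T.filter (fun q => q.1 < p.1 ∧ q.2 < p.2) := by
    intro p hp
    rw [Finset.filter_insert, if_neg]
    rintro ⟨-, h⟩
    exact absurd h (not_lt.2 (hlt p hp).le)
  unfold SW
  rw [Finset.forall_mem_insert, h1, h1']
  refine and_congr_right fun _ => ?_
  exact forall₂_congr fun p hp => by rw [h2 p hp]

theorem fi_insert {m : ℕ} {D : Set (ℕ × ℕ)} {C R : Finset ℕ} {T : Finset (ℕ × ℕ)} {c r : ℕ}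
    (hr : ∀ x ∈ R, x < r) (hT : T ∈ Fill (C.erase c) R) :
    FI m D (insert (c, r) T) ↔ (C.filter fun c' => c < c' ∧ (c', r) ∈ D).card < m ∧ FI m D T := by
  have hlt : ∀ q ∈ T, q.2 < r := fun q hq =>
    hr _ ((mem_Fill.1 hT).2.2.2 ▸ Finset.mem_image_of_mem _ hq)
  have h1 : (insert (c, r) T).filter
      (fun q => (c, r).1 < q.1 ∧ q.2 < (c, r).2 ∧ (q.1, (c, r).2) ∈ D) =
      T.filter (fun q => c < q.1 ∧ (q.1, r) ∈ D) := by
    ext q
    simp only [Finset.mem_filter, Finset.mem_insert]
    constructor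
    · rintro ⟨h | h, h2, h3, h4⟩
      · subst h; simp at h2
      · exact ⟨h, h2, h4⟩
    · rintro ⟨h, h2, h3⟩
      exact ⟨Or.inr h, h2, hlt q h, h3⟩
  have h1' : (T.filter (fun q => c < q.1 ∧ (q.1, r) ∈ D)).card =
      (C.filter fun c' => c < c' ∧ (c', r) ∈ D).card := by
    rw [card_filter_fst hT (fun x => c < x ∧ (x, r) ∈ D)]
    congr 1
    ext x
    simp only [Finset.mem_filter, Finset.mem_erase]
    constructor
    · rintro ⟨⟨_, h⟩, h2⟩; exact ⟨h, h2⟩
    · rintro ⟨h, h2⟩; exact ⟨⟨by omega, h⟩, h2⟩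
  have h2 : ∀ p ∈ T, (insert (c, r) T).filter (fun q => p.1 < q.1 ∧ q.2 < p.2 ∧ (q.1, p.2) ∈ D) =
      T.filter (fun q => p.1 < q.1 ∧ q.2 < p.2 ∧ (q.1, p.2) ∈ D) := by
    intro p hp
    rw [Finset.filter_insert, if_neg]
    rintro ⟨-, h, -⟩
    exact absurd h (not_lt.2 (hlt p hp).le)
  unfold FI
  rw [Finset.forall_mem_insert, h1, h1']
  refine and_congr_right fun _ => ?_
  exact forall₂_congr fun p hp => by rw [h2 p hp]

/-- the width of a row -/
noncomputable def wid (D : Set (ℕ × ℕ)) (C : Finset ℕ) (r : ℕ) : ℕ :=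
  (C.filter fun c => (c, r) ∈ D).card

/-- `D` is a lower set -/
def Low (D : Set (ℕ × ℕ)) : Prop := ∀ p ∈ D, ∀ q : ℕ × ℕ, q.1 ≤ p.1 → q.2 ≤ p.2 → q ∈ D

/-- the product formula, in an abstract form -/
theorem count_aux {m : ℕ} {D : Set (ℕ × ℕ)} (hD : Low D) (Q : Finset (ℕ × ℕ) → Prop)
    (cond : Finset ℕ → ℕ → ℕ → Prop) (h0 : Q ∅)
    (hins : ∀ (C R : Finset ℕ) (T : Finset (ℕ × ℕ)) (c r : ℕ), (∀ x ∈ R, x < r) →
      T ∈ Fill (C.erase c) R → (Q (insert (c, r) T) ↔ cond C r c ∧ Q T))
    (hcond : ∀ (C : Finset ℕ) (r : ℕ), (C.filter fun c => (c, r) ∈ D ∧ cond C r c).card =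
      min m (wid D C r)) (R : Finset ℕ) : ∀ C : Finset ℕ, C.card = R.card →
    ((Fill C R).filter fun T : Finset (ℕ × ℕ) => (T : Set (ℕ × ℕ)) ⊆ D ∧ Q T).card =
      ∏ r ∈ R, min m (wid D C r - (R.filter fun r' => r < r').card) := by
  induction R using Finset.induction_on_max with
  | empty =>
    intro C hC
    rw [Finset.card_empty, Finset.card_eq_zero] at hC
    subst hC
    rw [Finset.prod_empty, Finset.card_eq_one]
    refine ⟨∅, ?_⟩
    ext T
    rw [Finset.mem_filter, mem_Fill, Finset.mem_singleton]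
    constructor
    · rintro ⟨⟨-, -, h, -⟩, -⟩
      simpa using h
    · rintro rfl
      simp [h0]
  | insert r s hs ih =>
    intro C hC
    have hns : r ∉ s := fun h => lt_irrefl _ (hs r h)
    rw [Finset.card_insert_of_notMem hns] at hC
    rw [card_Fill_insert hns, Finset.prod_insert hns]
    have hab : ((insert r s).filter fun r' => r < r').card = 0 := by
      rw [Finset.card_eq_zero, Finset.filter_eq_empty_iff]
      intro x hx
      rcases Finset.mem_insert.1 hx with rfl | h
      · exact lt_irrefl _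
      · exact not_lt.2 (hs x h).le
    rw [hab, Nat.sub_zero, ← hcond C r, Finset.card_filter, Finset.sum_mul]
    refine Finset.sum_congr rfl fun c hc => ?_
    have e1 : (Fill (C.erase c) s).filter
        (fun T : Finset (ℕ × ℕ) => ((insert (c, r) T : Finset (ℕ × ℕ)) : Set (ℕ × ℕ)) ⊆ D ∧ Q (insert (c, r) T)) =
        (Fill (C.erase c) s).filter
          (fun T : Finset (ℕ × ℕ) => ((c, r) ∈ D ∧ cond C r c) ∧ ((T : Set (ℕ × ℕ)) ⊆ D ∧ Q T)) := by
      refine Finset.filter_congr fun T hT => ?_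
      rw [hins C s T c r hs hT, Finset.coe_insert, Set.insert_subset_iff]
      tauto
    rw [e1]
    by_cases hcc : (c, r) ∈ D ∧ cond C r c
    · rw [if_pos hcc, one_mul]
      simp only [hcc, true_and, and_self]
      have := ih (C.erase c) (by rw [Finset.card_erase_of_mem hc]; omega)
      rw [this]
      refine Finset.prod_congr rfl fun r' hr' => ?_
      congr 1
      have hcr' : (c, r') ∈ D := hD _ hcc.1 _ le_rfl (hs r' hr').le
      have w1 : wid D C r' = wid D (C.erase c) r' + 1 := by
        unfold wid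
        rw [Finset.filter_erase, Finset.card_erase_add_one]
        exact Finset.mem_filter.2 ⟨hc, hcr'⟩
      have w2 : ((insert r s).filter fun r'' => r' < r'').card =
          (s.filter fun r'' => r' < r'').card + 1 := by
        rw [Finset.filter_insert, if_pos (hs r' hr'), Finset.card_insert_of_notMem]
        exact fun h => hns (Finset.mem_of_mem_filter _ h)
      rw [w1, w2]
      omega
    · rw [if_neg hcc, zero_mul, Finset.card_eq_zero, Finset.filter_eq_empty_iff]
      intro T _ h
      exact hcc h.1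

theorem count_SW {m : ℕ} {D : Set (ℕ × ℕ)} (hD : Low D) (R C : Finset ℕ) (h : C.card = R.card) :
    ((Fill C R).filter fun T : Finset (ℕ × ℕ) => (T : Set (ℕ × ℕ)) ⊆ D ∧ SW m T).card =
      ∏ r ∈ R, min m (wid D C r - (R.filter fun r' => r < r').card) := by
  refine count_aux hD (SW m) (fun C _ c => (C.filter fun c' => c' < c).card < m) ?_ ?_ ?_ R C h
  · intro p hp
    simp at hp
  · intro C R T c r hr hT
    exact sw_insert hr hT
  · intro C r
    unfold wid
    rw [← rank_lt]
    congr 1
    ext c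
    simp only [Finset.mem_filter]
    have : (c, r) ∈ D → (C.filter fun c' => c' < c) =
        (C.filter fun c => (c, r) ∈ D).filter fun c' => c' < c := by
      intro hc
      ext x
      simp only [Finset.mem_filter]
      constructor
      · rintro ⟨h1, h2⟩
        exact ⟨⟨h1, hD _ hc _ h2.le le_rfl⟩, h2⟩
      · rintro ⟨⟨h1, _⟩, h2⟩
        exact ⟨h1, h2⟩
    constructor
    · rintro ⟨h1, h2, h3⟩
      exact ⟨⟨h1, h2⟩, by rw [← this h2]; exact h3⟩
    · rintro ⟨⟨h1, h2⟩, h3⟩
      exact ⟨h1, h2, by rw [this h2]; exact h3⟩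

theorem count_FI {m : ℕ} {D : Set (ℕ × ℕ)} (hD : Low D) (R C : Finset ℕ) (h : C.card = R.card) :
    ((Fill C R).filter fun T : Finset (ℕ × ℕ) => (T : Set (ℕ × ℕ)) ⊆ D ∧ FI m D T).card =
      ∏ r ∈ R, min m (wid D C r - (R.filter fun r' => r < r').card) := by
  refine count_aux hD (FI m D)
    (fun C r c => (C.filter fun c' => c < c' ∧ (c', r) ∈ D).card < m) ?_ ?_ ?_ R C h
  · intro p hp
    simp at hp
  · intro C R T c r hr hT
    exact fi_insert hr hT
  · intro C r
    unfold wid
    rw [← rank_gt]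
    congr 1
    ext c
    simp only [Finset.mem_filter]
    have : (C.filter fun c' => c < c' ∧ (c', r) ∈ D) =
        (C.filter fun c => (c, r) ∈ D).filter fun c' => c < c' := by
      ext x
      simp only [Finset.mem_filter]
      tauto
    rw [this]
    tauto

/-- the two counts agree -/
theorem count_eq {m : ℕ} {D : Set (ℕ × ℕ)} (hD : Low D) (R C : Finset ℕ) (h : C.card = R.card) :
    ((Fill C R).filter fun T : Finset (ℕ × ℕ) => (T : Set (ℕ × ℕ)) ⊆ D ∧ SW m T).card =
      ((Fill C R).filter fun T : Finset (ℕ × ℕ) => (T : Set (ℕ × ℕ)) ⊆ D ∧ FI m D T).card := by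
  rw [count_SW hD R C h, count_FI hD R C h]

end Pool.Agent.V7H25.Wilf
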