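import Pool.Agent.V7H25.Wilf.Transfer

/-!
# From fillings to permutations
-/

set_option autoImplicit false

namespace Pool.Agent.V7H25.Wilf

open Finset Classical Equiv

/-- the graph of a permutation -/
noncomputable def graph {n : ℕ} (π : Perm (Fin n)) : Finset (ℕ × ℕ) :=
  Finset.univ.image fun i : Fin n => ((i : ℕ), (π i : ℕ))

theorem mem_graph {n : ℕ} {π : Perm (Fin n)} {p : ℕ × ℕ} :
    p ∈ graph π ↔ ∃ i : Fin n, (i : ℕ) = p.1 ∧ (π i : ℕ) = p.2 := by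
  unfold graph
  rw [Finset.mem_image]
  constructor
  · rintro ⟨i, -, rfl⟩
    exact ⟨i, rfl, rfl⟩
  · rintro ⟨i, h1, h2⟩
    exact ⟨i, Finset.mem_univ _, Prod.ext h1 h2⟩

theorem graph_mem_Fill {n : ℕ} (π : Perm (Fin n)) : graph π ∈ Fill (range n) (range n) := by
  rw [mem_Fill]
  refine ⟨?_, ?_, ?_, ?_⟩
  · intro p hp q hq h
    obtain ⟨i, h1, h2⟩ := mem_graph.1 (Finset.mem_coe.1 hp)
    obtain ⟨j, h3, h4⟩ := mem_graph.1 (Finset.mem_coe.1 hq)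
    have : i = j := Fin.ext (by rw [h1, h3, h])
    subst this
    exact Prod.ext h (by rw [← h2, ← h4])
  · intro p hp q hq h
    obtain ⟨i, h1, h2⟩ := mem_graph.1 (Finset.mem_coe.1 hp)
    obtain ⟨j, h3, h4⟩ := mem_graph.1 (Finset.mem_coe.1 hq)
    have : i = j := π.injective (Fin.ext (by rw [h2, h4, h]))
    subst this
    exact Prod.ext (by rw [← h1, ← h3]) h
  · ext x
    rw [Finset.mem_image, Finset.mem_range]
    constructor
    · rintro ⟨p, hp, rfl⟩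
      obtain ⟨i, h1, h2⟩ := mem_graph.1 hp
      omega
    · intro hx
      exact ⟨(x, (π ⟨x, hx⟩ : ℕ)), mem_graph.2 ⟨⟨x, hx⟩, rfl, rfl⟩, rfl⟩
  · ext x
    rw [Finset.mem_image, Finset.mem_range]
    constructor
    · rintro ⟨p, hp, rfl⟩
      obtain ⟨i, h1, h2⟩ := mem_graph.1 hp
      omega
    · intro hx
      refine ⟨((π.symm ⟨x, hx⟩ : ℕ), x), mem_graph.2 ⟨π.symm ⟨x, hx⟩, rfl, ?_⟩, rfl⟩
      simp

theorem graph_injective {n : ℕ} : Function.Injective (graph (n := n)) := by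
  intro π σ h
  ext i
  have h1 : ((i : ℕ), (π i : ℕ)) ∈ graph π := mem_graph.2 ⟨i, rfl, rfl⟩
  rw [h] at h1
  obtain ⟨j, h2, h3⟩ := mem_graph.1 h1
  have : j = i := Fin.ext h2
  subst this
  exact h3.symm

theorem exists_graph {n : ℕ} {T : Finset (ℕ × ℕ)} (hT : T ∈ Fill (range n) (range n)) :
    ∃ π : Perm (Fin n), graph π = T := by
  obtain ⟨h1, h2, h3, h4⟩ := mem_Fill.1 hT
  have hex : ∀ i : Fin n, ∃ j : Fin n, ((i : ℕ), (j : ℕ)) ∈ T := by
    intro i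
    have : (i : ℕ) ∈ T.image Prod.fst := by rw [h3]; exact Finset.mem_range.2 i.2
    obtain ⟨⟨x, y⟩, hq, hqi⟩ := Finset.mem_image.1 this
    have hy : y ∈ T.image Prod.snd := Finset.mem_image_of_mem Prod.snd hq
    rw [h4, Finset.mem_range] at hy
    simp only at hqi
    subst hqi
    exact ⟨⟨y, hy⟩, hq⟩
  choose f hf using hex
  have hinj : Function.Injective f := by
    intro i j hij
    have := h2 (hf i) (hf j) (by simp only; rw [hij])
    exact Fin.ext (by simpa using congrArg Prod.fst this)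
  refine ⟨Equiv.ofBijective f (Finite.injective_iff_bijective.1 hinj), ?_⟩
  ext p
  rw [mem_graph]
  constructor
  · rintro ⟨i, hi1, hi2⟩
    have := hf i
    have e : p = ((i : ℕ), (f i : ℕ)) := Prod.ext hi1.symm hi2.symm
    rw [e]
    exact this
  · intro hp
    have hx : p.1 ∈ T.image Prod.fst := Finset.mem_image_of_mem Prod.fst hp
    rw [h3, Finset.mem_range] at hx
    refine ⟨⟨p.1, hx⟩, rfl, ?_⟩
    have := h1 (hf ⟨p.1, hx⟩) hp rfl
    simpa using congrArg Prod.snd this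

theorem card_graph {n : ℕ} (P : Finset (ℕ × ℕ) → Prop) :
    (Finset.univ.filter fun π : Perm (Fin n) => P (graph π)).card =
      ((Fill (range n) (range n)).filter P).card := by
  refine Finset.card_bij (fun π _ => graph π) ?_ ?_ ?_
  · intro π hπ
    rw [Finset.mem_filter] at hπ ⊢
    exact ⟨graph_mem_Fill π, hπ.2⟩
  · intro π _ σ _ h
    exact graph_injective h
  · intro T hT
    rw [Finset.mem_filter] at hT
    obtain ⟨π, rfl⟩ := exists_graph hT.1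
    exact ⟨π, Finset.mem_filter.2 ⟨Finset.mem_univ _, hT.2⟩, rfl⟩

/-- the pattern `21` -/
def S21 : Set (Finset (ℕ × ℕ)) :=
  {K | ∃ a b c d : ℕ, a < b ∧ d < c ∧ K = {(a, c), (b, d)}}

/-- the patterns `123` and `132` -/
def S3 : Set (Finset (ℕ × ℕ)) :=
  {K | ∃ a b c x y z : ℕ, a < b ∧ b < c ∧ x < y ∧ x < z ∧ K = {(a, x), (b, y), (c, z)}}

theorem S21_ne : ∀ K ∈ S21, K.Nonempty := by
  rintro K ⟨a, b, c, d, -, -, rfl⟩
  exact ⟨(a, c), by simp⟩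

theorem S3_ne : ∀ K ∈ S3, K.Nonempty := by
  rintro K ⟨a, b, c, x, y, z, -, -, -, -, rfl⟩
  exact ⟨(a, x), by simp⟩

theorem mem_Reg21 {n : ℕ} {π : Perm (Fin n)} {z : ℕ × ℕ} : z ∈ Reg S21 (graph π) ↔
    ∃ d e : Fin n, z.1 < d ∧ d < e ∧ z.2 < π e ∧ π e < π d := by
  constructor
  · rintro ⟨K, ⟨a, b, c, d, h1, h2, rfl⟩, h3, h4⟩
    have m1 := h3 (show (a, c) ∈ _ by simp)
    have m2 := h3 (show (b, d) ∈ _ by simp)
    have l1 := h4 (a, c) (by simp)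
    have l2 := h4 (b, d) (by simp)
    obtain ⟨i, i1, i2⟩ := mem_graph.1 m1
    obtain ⟨j, j1, j2⟩ := mem_graph.1 m2
    simp only at i1 i2 j1 j2 l1 l2
    refine ⟨i, j, by omega, ?_, by omega, ?_⟩
    · rw [Fin.lt_def]; omega
    · rw [Fin.lt_def]; omega
  · rintro ⟨d, e, h1, h2, h3, h4⟩
    rw [Fin.lt_def] at h2 h4
    refine ⟨{((d : ℕ), (π d : ℕ)), ((e : ℕ), (π e : ℕ))}, ⟨d, e, π d, π e, h2, h4, rfl⟩, ?_, ?_⟩
    · intro p hp
      rw [Finset.mem_insert, Finset.mem_singleton] at hp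
      rcases hp with rfl | rfl
      · exact mem_graph.2 ⟨d, rfl, rfl⟩
      · exact mem_graph.2 ⟨e, rfl, rfl⟩
    · intro p hp
      rw [Finset.mem_insert, Finset.mem_singleton] at hp
      rcases hp with rfl | rfl
      · exact ⟨h1, by simp only; omega⟩
      · exact ⟨by simp only; omega, h3⟩

theorem mem_Reg3 {n : ℕ} {π : Perm (Fin n)} {z : ℕ × ℕ} : z ∈ Reg S3 (graph π) ↔
    ∃ c d e : Fin n, z.1 < c ∧ c < d ∧ d < e ∧ z.2 < π c ∧ π c < π d ∧ π c < π e := by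
  constructor
  · rintro ⟨K, ⟨a, b, c, x, y, w, h1, h2, h2', h2'', rfl⟩, h3, h4⟩
    have m1 := h3 (show (a, x) ∈ _ by simp)
    have m2 := h3 (show (b, y) ∈ _ by simp)
    have m3 := h3 (show (c, w) ∈ _ by simp)
    have l1 := h4 (a, x) (by simp)
    obtain ⟨i, i1, i2⟩ := mem_graph.1 m1
    obtain ⟨j, j1, j2⟩ := mem_graph.1 m2
    obtain ⟨k, k1, k2⟩ := mem_graph.1 m3
    simp only at i1 i2 j1 j2 k1 k2 l1
    refine ⟨i, j, k, by omega, ?_, ?_, by omega, ?_, ?_⟩ <;> rw [Fin.lt_def] <;> omega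
  · rintro ⟨c, d, e, h1, h2, h3, h4, h5, h6⟩
    rw [Fin.lt_def] at h2 h3 h5 h6
    refine ⟨{((c : ℕ), (π c : ℕ)), ((d : ℕ), (π d : ℕ)), ((e : ℕ), (π e : ℕ))},
      ⟨c, d, e, π c, π d, π e, h2, h3, h5, h6, rfl⟩, ?_, ?_⟩
    · intro p hp
      rw [Finset.mem_insert, Finset.mem_insert, Finset.mem_singleton] at hp
      rcases hp with rfl | rfl | rfl
      · exact mem_graph.2 ⟨c, rfl, rfl⟩
      · exact mem_graph.2 ⟨d, rfl, rfl⟩
      · exact mem_graph.2 ⟨e, rfl, rfl⟩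
    · intro p hp
      rw [Finset.mem_insert, Finset.mem_insert, Finset.mem_singleton] at hp
      rcases hp with rfl | rfl | rfl
      · exact ⟨h1, h4⟩
      · exact ⟨by simp only; omega, by simp only; omega⟩
      · exact ⟨by simp only; omega, by simp only; omega⟩

/-- `∃ a < b < c < d < e` with a relation between the values -/
def Occ {n : ℕ} (r : ℕ → ℕ → ℕ → ℕ → ℕ → Prop) (π : Perm (Fin n)) : Prop :=
  ∃ a b c d e : Fin n, a < b ∧ b < c ∧ c < d ∧ d < e ∧ r (π a) (π b) (π c) (π d) (π e)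

/-- `32154` or `31254` -/
def r1 (a b c d e : ℕ) : Prop := b < a ∧ c < a ∧ a < e ∧ e < d
/-- `12354` or `21354` -/
def r2 (a b c d e : ℕ) : Prop := a < c ∧ b < c ∧ c < e ∧ e < d
/-- `21345` or `21354` -/
def r3 (a b c d e : ℕ) : Prop := b < a ∧ a < c ∧ c < d ∧ c < e
/-- `12345` or `12354` -/
def r4 (a b c d e : ℕ) : Prop := a < b ∧ b < c ∧ c < d ∧ c < e
/-- `45123` or `45213` -/
def r0 (a b c d e : ℕ) : Prop := c < e ∧ d < e ∧ e < a ∧ a < b

theorem two_le_card {T : Finset (ℕ × ℕ)} {n : ℕ} {π : Perm (Fin n)} (hT : T ⊆ graph π)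
    (h : ¬ T.card < 2) : ∃ b c : Fin n, b < c ∧ ((b : ℕ), (π b : ℕ)) ∈ T ∧ ((c : ℕ), (π c : ℕ)) ∈ T := by
  have h1 : 1 < T.card := by omega
  obtain ⟨p, hp, q, hq, hne⟩ := Finset.one_lt_card.1 h1
  obtain ⟨i, i1, i2⟩ := mem_graph.1 (hT hp)
  obtain ⟨j, j1, j2⟩ := mem_graph.1 (hT hq)
  have ep : p = ((i : ℕ), (π i : ℕ)) := Prod.ext i1.symm i2.symm
  have eq : q = ((j : ℕ), (π j : ℕ)) := Prod.ext j1.symm j2.symm
  have hij : i ≠ j := fun h => hne (by rw [ep, eq, h])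
  rcases lt_or_gt_of_ne hij with h | h
  · exact ⟨i, j, h, ep ▸ hp, eq ▸ hq⟩
  · exact ⟨j, i, h, eq ▸ hq, ep ▸ hp⟩

theorem lt_two {T : Finset (ℕ × ℕ)} {n : ℕ} {π : Perm (Fin n)} {b c : Fin n} (hbc : b < c)
    (hb : ((b : ℕ), (π b : ℕ)) ∈ T) (hc : ((c : ℕ), (π c : ℕ)) ∈ T) : ¬ T.card < 2 := by
  rw [not_lt]
  have : 1 < T.card := Finset.one_lt_card.2 ⟨_, hb, _, hc, fun h => by
    have := congrArg Prod.fst h
    simp only at this
    rw [Fin.lt_def] at hbc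
    omega⟩
  omega

theorem E1 {n : ℕ} (π : Perm (Fin n)) : Q2 2 S21 (graph π) ↔ ¬ Occ r1 π := by
  rw [← not_iff_not, not_not]
  constructor
  · intro h
    unfold Q2 at h
    push Not at h
    obtain ⟨p, hp, h⟩ := h
    obtain ⟨a, a1, a2⟩ := mem_graph.1 hp
    obtain ⟨b, c, hbc, hb, hc⟩ := two_le_card (Finset.filter_subset _ _) (not_lt.2 h)
    obtain ⟨-, b1, b2, -⟩ := Finset.mem_filter.1 hb
    obtain ⟨-, c1, c2, c3⟩ := Finset.mem_filter.1 hc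
    obtain ⟨d, e, h1, h2, h3, h4⟩ := mem_Reg21.1 c3
    simp only [Fin.lt_def] at *
    refine ⟨a, b, c, d, e, ?_, ?_, ?_, ?_, ?_, ?_, ?_, ?_⟩ <;> omega
  · rintro ⟨a, b, c, d, e, hab, hbc, hcd, hde, h1, h2, h3, h4⟩ h
    have := h ((a : ℕ), (π a : ℕ)) (mem_graph.2 ⟨a, rfl, rfl⟩)
    have hR : ∀ x : Fin n, x ≤ c → ((x : ℕ), (π a : ℕ)) ∈ Reg S21 (graph π) := by
      intro x hx
      refine mem_Reg21.2 ⟨d, e, ?_, hde, ?_, ?_⟩
      · simp only; rw [Fin.le_def] at hx; rw [Fin.lt_def] at hcd; omega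
      · exact h3
      · rw [Fin.lt_def]; exact h4
    refine lt_two (π := π) hbc ?_ ?_ this
    · refine Finset.mem_filter.2 ⟨mem_graph.2 ⟨b, rfl, rfl⟩, ?_, h1, hR b hbc.le⟩
      exact hab
    · refine Finset.mem_filter.2 ⟨mem_graph.2 ⟨c, rfl, rfl⟩, ?_, h2, hR c le_rfl⟩
      exact hab.trans hbc

theorem E2 {n : ℕ} (π : Perm (Fin n)) : Q1 2 S21 (graph π) ↔ ¬ Occ r2 π := by
  rw [← not_iff_not, not_not]
  constructor
  · intro h
    unfold Q1 at h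
    push Not at h
    obtain ⟨p, hp, hpR, h⟩ := h
    obtain ⟨c, a1, a2⟩ := mem_graph.1 hp
    obtain ⟨a, b, hab, ha, hb⟩ := two_le_card (Finset.filter_subset _ _) (not_lt.2 h)
    obtain ⟨-, b1, b2⟩ := Finset.mem_filter.1 ha
    obtain ⟨-, c1, c2⟩ := Finset.mem_filter.1 hb
    obtain ⟨d, e, h1, h2, h3, h4⟩ := mem_Reg21.1 hpR
    simp only [Fin.lt_def] at *
    refine ⟨a, b, c, d, e, ?_, ?_, ?_, ?_, ?_, ?_, ?_, ?_⟩ <;> omega
  · rintro ⟨a, b, c, d, e, hab, hbc, hcd, hde, h1, h2, h3, h4⟩ h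
    have := h ((c : ℕ), (π c : ℕ)) (mem_graph.2 ⟨c, rfl, rfl⟩)
      (mem_Reg21.2 ⟨d, e, hcd, hde, h3, h4⟩)
    refine lt_two (π := π) hab ?_ ?_ this
    · exact Finset.mem_filter.2 ⟨mem_graph.2 ⟨a, rfl, rfl⟩, hab.trans hbc, h1⟩
    · exact Finset.mem_filter.2 ⟨mem_graph.2 ⟨b, rfl, rfl⟩, hbc, h2⟩

theorem E3 {n : ℕ} (π : Perm (Fin n)) : Q2 1 S3 (graph π) ↔ ¬ Occ r3 π := by
  rw [← not_iff_not, not_not]
  constructor
  · intro h
    unfold Q2 at h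
    push Not at h
    obtain ⟨p, hp, h⟩ := h
    obtain ⟨a, a1, a2⟩ := mem_graph.1 hp
    obtain ⟨q, hq⟩ := Finset.card_pos.1 (Nat.lt_of_lt_of_le Nat.zero_lt_one h)
    obtain ⟨hq', b1, b2, b3⟩ := Finset.mem_filter.1 hq
    obtain ⟨b, q1, q2⟩ := mem_graph.1 hq'
    obtain ⟨c, d, e, h1, h2, h3, h4, h5, h6⟩ := mem_Reg3.1 b3
    simp only [Fin.lt_def] at *
    refine ⟨a, b, c, d, e, ?_, ?_, ?_, ?_, ?_, ?_, ?_, ?_⟩ <;> omega
  · rintro ⟨a, b, c, d, e, hab, hbc, hcd, hde, h1, h2, h3, h4⟩ h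
    have := h ((a : ℕ), (π a : ℕ)) (mem_graph.2 ⟨a, rfl, rfl⟩)
    rw [Nat.lt_one_iff, Finset.card_eq_zero, Finset.filter_eq_empty_iff] at this
    exact this (mem_graph.2 ⟨b, rfl, rfl⟩ : ((b : ℕ), (π b : ℕ)) ∈ _)
      ⟨hab, h1, mem_Reg3.2 ⟨c, d, e, hbc, hcd, hde, h2, h3, h4⟩⟩

theorem E4 {n : ℕ} (π : Perm (Fin n)) : Q1 1 S3 (graph π) ↔ ¬ Occ r4 π := by
  rw [← not_iff_not, not_not]
  constructor
  · intro h
    unfold Q1 at h
    push Not at h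
    obtain ⟨p, hp, hpR, h⟩ := h
    obtain ⟨b, a1, a2⟩ := mem_graph.1 hp
    obtain ⟨q, hq⟩ := Finset.card_pos.1 (Nat.lt_of_lt_of_le Nat.zero_lt_one h)
    obtain ⟨hq', b1, b2⟩ := Finset.mem_filter.1 hq
    obtain ⟨a, q1, q2⟩ := mem_graph.1 hq'
    obtain ⟨c, d, e, h1, h2, h3, h4, h5, h6⟩ := mem_Reg3.1 hpR
    simp only [Fin.lt_def] at *
    refine ⟨a, b, c, d, e, ?_, ?_, ?_, ?_, ?_, ?_, ?_, ?_⟩ <;> omega
  · rintro ⟨a, b, c, d, e, hab, hbc, hcd, hde, h1, h2, h3, h4⟩ h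
    have := h ((b : ℕ), (π b : ℕ)) (mem_graph.2 ⟨b, rfl, rfl⟩)
      (mem_Reg3.2 ⟨c, d, e, hbc, hcd, hde, h2, h3, h4⟩)
    rw [Nat.lt_one_iff, Finset.card_eq_zero, Finset.filter_eq_empty_iff] at this
    exact this (mem_graph.2 ⟨a, rfl, rfl⟩ : ((a : ℕ), (π a : ℕ)) ∈ _) ⟨hab, h1⟩

/-- `π` read backwards -/
def rv {n : ℕ} (π : Perm (Fin n)) : Perm (Fin n) := Fin.revPerm.trans π

/-- reverse-complement -/
def rc {n : ℕ} (π : Perm (Fin n)) : Perm (Fin n) := (Fin.revPerm.trans π).trans Fin.revPerm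

theorem rv_apply {n : ℕ} (π : Perm (Fin n)) (i : Fin n) : rv π i = π i.rev := rfl
theorem rc_apply {n : ℕ} (π : Perm (Fin n)) (i : Fin n) : rc π i = (π i.rev).rev := rfl

theorem rv_rv {n : ℕ} (π : Perm (Fin n)) : rv (rv π) = π := by
  ext i; simp [rv_apply]
theorem rc_rc {n : ℕ} (π : Perm (Fin n)) : rc (rc π) = π := by
  ext i; simp [rc_apply]

theorem occ_rv {n : ℕ} (π : Perm (Fin n)) : Occ r1 (rv π) ↔ Occ r0 π := by
  constructor
  · rintro ⟨a, b, c, d, e, hab, hbc, hcd, hde, h1, h2, h3, h4⟩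
    exact ⟨e.rev, d.rev, c.rev, b.rev, a.rev, Fin.rev_lt_rev.2 hde, Fin.rev_lt_rev.2 hcd,
      Fin.rev_lt_rev.2 hbc, Fin.rev_lt_rev.2 hab, h2, h1, h3, h4⟩
  · rintro ⟨a, b, c, d, e, hab, hbc, hcd, hde, h1, h2, h3, h4⟩
    refine ⟨e.rev, d.rev, c.rev, b.rev, a.rev, Fin.rev_lt_rev.2 hde, Fin.rev_lt_rev.2 hcd,
      Fin.rev_lt_rev.2 hbc, Fin.rev_lt_rev.2 hab, ?_⟩
    simp only [rv_apply, Fin.rev_rev]
    exact ⟨h2, h1, h3, h4⟩

theorem occ_rc {n : ℕ} (π : Perm (Fin n)) : Occ r2 (rc π) ↔ Occ r3 π := by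
  have key : ∀ x y : Fin n, ((x.rev : Fin n) : ℕ) < (y.rev : Fin n) ↔ (y : ℕ) < x := by
    intro x y
    rw [← Fin.lt_def, Fin.rev_lt_rev, Fin.lt_def]
  constructor
  · rintro ⟨a, b, c, d, e, hab, hbc, hcd, hde, h1, h2, h3, h4⟩
    rw [rc_apply, rc_apply, key] at h1 h2 h3 h4
    exact ⟨e.rev, d.rev, c.rev, b.rev, a.rev, Fin.rev_lt_rev.2 hde, Fin.rev_lt_rev.2 hcd,
      Fin.rev_lt_rev.2 hbc, Fin.rev_lt_rev.2 hab, h4, h3, h2, h1⟩
  · rintro ⟨a, b, c, d, e, hab, hbc, hcd, hde, h1, h2, h3, h4⟩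
    refine ⟨e.rev, d.rev, c.rev, b.rev, a.rev, Fin.rev_lt_rev.2 hde, Fin.rev_lt_rev.2 hcd,
      Fin.rev_lt_rev.2 hbc, Fin.rev_lt_rev.2 hab, ?_⟩
    unfold r2
    rw [rc_apply, rc_apply, rc_apply, rc_apply, rc_apply, key, key, key, key]
    simp only [Fin.rev_rev]
    exact ⟨h4, h3, h2, h1⟩

theorem card_invol {n : ℕ} (f : Perm (Fin n) → Perm (Fin n)) (hf : ∀ π, f (f π) = π)
    (P : Perm (Fin n) → Prop) [DecidablePred P] :
    (Finset.univ.filter fun π => P (f π)).card = (Finset.univ.filter P).card := by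
  refine Finset.card_bij (fun π _ => f π) ?_ ?_ ?_
  · intro π hπ
    rw [Finset.mem_filter] at hπ ⊢
    exact ⟨Finset.mem_univ _, hπ.2⟩
  · intro π _ σ _ h
    rw [← hf π, ← hf σ, h]
  · intro π hπ
    refine ⟨f π, ?_, hf π⟩
    rw [Finset.mem_filter] at hπ ⊢
    rw [hf]
    exact ⟨Finset.mem_univ _, hπ.2⟩

theorem chain (n : ℕ) :
    (Finset.univ.filter fun π : Perm (Fin n) => ¬ Occ r0 π).card =
      (Finset.univ.filter fun π : Perm (Fin n) => ¬ Occ r4 π).card := by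
  calc (Finset.univ.filter fun π : Perm (Fin n) => ¬ Occ r0 π).card
      = (Finset.univ.filter fun π : Perm (Fin n) => ¬ Occ r1 (rv π)).card := by
        congr 1
        exact Finset.filter_congr fun π _ => by rw [occ_rv]
    _ = (Finset.univ.filter fun π : Perm (Fin n) => ¬ Occ r1 π).card :=
        card_invol rv rv_rv fun π => ¬ Occ r1 π
    _ = (Finset.univ.filter fun π : Perm (Fin n) => Q2 2 S21 (graph π)).card := by
        congr 1
        exact Finset.filter_congr fun π _ => by rw [E1]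
    _ = (Finset.univ.filter fun π : Perm (Fin n) => Q1 2 S21 (graph π)).card := by
        rw [card_graph, card_graph, transfer (by norm_num) S21_ne]
    _ = (Finset.univ.filter fun π : Perm (Fin n) => ¬ Occ r2 π).card := by
        congr 1
        exact Finset.filter_congr fun π _ => by rw [E2]
    _ = (Finset.univ.filter fun π : Perm (Fin n) => ¬ Occ r2 (rc π)).card :=
        (card_invol rc rc_rc fun π => ¬ Occ r2 π).symm
    _ = (Finset.univ.filter fun π : Perm (Fin n) => ¬ Occ r3 π).card := by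
        congr 1
        exact Finset.filter_congr fun π _ => by rw [occ_rc]
    _ = (Finset.univ.filter fun π : Perm (Fin n) => Q2 1 S3 (graph π)).card := by
        congr 1
        exact Finset.filter_congr fun π _ => by rw [E3]
    _ = (Finset.univ.filter fun π : Perm (Fin n) => Q1 1 S3 (graph π)).card := by
        rw [card_graph, card_graph, transfer (by norm_num) S3_ne]
    _ = (Finset.univ.filter fun π : Perm (Fin n) => ¬ Occ r4 π).card := by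
        congr 1
        exact Finset.filter_congr fun π _ => by rw [E4]

end Pool.Agent.V7H25.Wilf
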