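import Pool.Agent.V7H25.Wilf.Board

/-!
# Transfer

Let `S` be a family of nonempty finite sets of points. For a finite set of points `T` let `Reg S T` be
the set of the cells which have a member of `S`, contained in `T`, to the north-east. The points of
`T` outside of `Reg S T` determine `Reg S T`, and the points inside may be rearranged.
-/

set_option autoImplicit false

namespace Pool.Agent.V7H25.Wilf

open Finset Classical

/-- the cells with a member of `S` inside `T` to the north-east -/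
def Reg (S : Set (Finset (ℕ × ℕ))) (T : Finset (ℕ × ℕ)) : Set (ℕ × ℕ) :=
  {z | ∃ K ∈ S, K ⊆ T ∧ ∀ k ∈ K, z.1 < k.1 ∧ z.2 < k.2}

variable {S : Set (Finset (ℕ × ℕ))}

theorem low_Reg (T : Finset (ℕ × ℕ)) : Low (Reg S T) := by
  rintro p ⟨K, hK, hKT, h⟩ q h1 h2
  exact ⟨K, hK, hKT, fun k hk => ⟨h1.trans_lt (h k hk).1, h2.trans_lt (h k hk).2⟩⟩

theorem Reg_mono {T T' : Finset (ℕ × ℕ)} (h : T ⊆ T') : Reg S T ⊆ Reg S T' := by
  rintro p ⟨K, hK, hKT, h'⟩
  exact ⟨K, hK, hKT.trans h, h'⟩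

/-- the points outside of the region -/
noncomputable def key (S : Set (Finset (ℕ × ℕ))) (T : Finset (ℕ × ℕ)) : Finset (ℕ × ℕ) :=
  T.filter fun p => p ∉ Reg S T

theorem Reg_key (hS : ∀ K ∈ S, K.Nonempty) (T : Finset (ℕ × ℕ)) : Reg S (key S T) = Reg S T := by
  refine Set.Subset.antisymm (Reg_mono (Finset.filter_subset _ _)) ?_
  -- induction on a bound minus the sum of the coordinates
  have hb : ∃ B : ℕ, ∀ p ∈ T, p.1 + p.2 ≤ B :=
    ⟨T.sup fun p => p.1 + p.2, fun p hp => Finset.le_sup (f := fun p : ℕ × ℕ => p.1 + p.2) hp⟩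
  obtain ⟨B, hB⟩ := hb
  have main : ∀ d : ℕ, ∀ z ∈ Reg S T, B ≤ z.1 + z.2 + d → z ∈ Reg S (key S T) := by
    intro d
    induction d with
    | zero =>
      intro z hz hzB
      obtain ⟨K, hK, hKT, h⟩ := hz
      obtain ⟨k, hk⟩ := hS K hK
      have := hB k (hKT hk)
      have := h k hk
      omega
    | succ d ih =>
      intro z hz hzB
      obtain ⟨K, hK, hKT, h⟩ := hz
      by_cases hall : ∀ k ∈ K, k ∉ Reg S T
      · exact ⟨K, hK, fun k hk => Finset.mem_filter.2 ⟨hKT hk, hall k hk⟩, h⟩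
      · push Not at hall
        obtain ⟨k, hk, hkR⟩ := hall
        have h1 := h k hk
        have h2 := ih k hkR (by omega)
        exact low_Reg _ k h2 z h1.1.le h1.2.le
  intro z hz
  exact main B z hz (by omega)

theorem disj_key (T : Finset (ℕ × ℕ)) : ∀ p ∈ key S T, p ∉ Reg S T :=
  fun _ hp => (Finset.mem_filter.1 hp).2

theorem Reg_union (hS : ∀ K ∈ S, K.Nonempty) {X F : Finset (ℕ × ℕ)}
    (hF : (F : Set (ℕ × ℕ)) ⊆ Reg S X) : Reg S (X ∪ F) = Reg S X := by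
  refine Set.Subset.antisymm ?_ (Reg_mono Finset.subset_union_left)
  rw [← Reg_key hS (X ∪ F)]
  refine Reg_mono ?_
  intro p hp
  rw [key, Finset.mem_filter, Finset.mem_union] at hp
  obtain ⟨h1 | h1, h2⟩ := hp
  · exact h1
  · exact absurd (Reg_mono Finset.subset_union_left (hF h1)) h2

theorem key_union (hS : ∀ K ∈ S, K.Nonempty) {X F : Finset (ℕ × ℕ)}
    (hX : ∀ p ∈ X, p ∉ Reg S X) (hF : (F : Set (ℕ × ℕ)) ⊆ Reg S X) : key S (X ∪ F) = X := by
  ext p
  rw [key, Finset.mem_filter, Reg_union hS hF, Finset.mem_union]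
  constructor
  · rintro ⟨h1 | h1, h2⟩
    · exact h1
    · exact absurd (hF h1) h2
  · intro h
    exact ⟨Or.inl h, hX p h⟩

/-- each point of the region has less than `m` points to the south-west -/
def Q1 (m : ℕ) (S : Set (Finset (ℕ × ℕ))) (T : Finset (ℕ × ℕ)) : Prop :=
  ∀ p ∈ T, p ∈ Reg S T → (T.filter fun q => q.1 < p.1 ∧ q.2 < p.2).card < m

/-- each point has less than `m` points to the south-east with the corner in the region -/
def Q2 (m : ℕ) (S : Set (Finset (ℕ × ℕ))) (T : Finset (ℕ × ℕ)) : Prop :=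
  ∀ p ∈ T, (T.filter fun q => p.1 < q.1 ∧ q.2 < p.2 ∧ (q.1, p.2) ∈ Reg S T).card < m

theorem Q1_union {m : ℕ} (hS : ∀ K ∈ S, K.Nonempty) {X F : Finset (ℕ × ℕ)}
    (hX : ∀ p ∈ X, p ∉ Reg S X) (hF : (F : Set (ℕ × ℕ)) ⊆ Reg S X) :
    Q1 m S (X ∪ F) ↔ SW m F := by
  have key : ∀ p ∈ F, (X ∪ F).filter (fun q => q.1 < p.1 ∧ q.2 < p.2) =
      F.filter (fun q => q.1 < p.1 ∧ q.2 < p.2) := by
    intro p hp
    ext q
    simp only [Finset.mem_filter, Finset.mem_union]
    constructor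
    · rintro ⟨h | h, h1, h2⟩
      · exact absurd (low_Reg X p (hF hp) q h1.le h2.le) (hX q h)
      · exact ⟨h, h1, h2⟩
    · rintro ⟨h, h1⟩
      exact ⟨Or.inr h, h1⟩
  unfold Q1 SW
  rw [Reg_union hS hF]
  constructor
  · intro h p hp
    rw [← key p hp]
    exact h p (Finset.mem_union_right _ hp) (hF hp)
  · intro h p hp hpR
    rcases Finset.mem_union.1 hp with h1 | h1
    · exact absurd hpR (hX p h1)
    · rw [key p h1]
      exact h p h1

theorem Q2_union {m : ℕ} (hm : 0 < m) (hS : ∀ K ∈ S, K.Nonempty) {X F : Finset (ℕ × ℕ)}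
    (hX : ∀ p ∈ X, p ∉ Reg S X) (hF : (F : Set (ℕ × ℕ)) ⊆ Reg S X) :
    Q2 m S (X ∪ F) ↔ FI m (Reg S X) F := by
  have key : ∀ p : ℕ × ℕ, (X ∪ F).filter (fun q => p.1 < q.1 ∧ q.2 < p.2 ∧ (q.1, p.2) ∈ Reg S X) =
      F.filter (fun q => p.1 < q.1 ∧ q.2 < p.2 ∧ (q.1, p.2) ∈ Reg S X) := by
    intro p
    ext q
    simp only [Finset.mem_filter, Finset.mem_union]
    constructor
    · rintro ⟨h | h, h1, h2, h3⟩
      · exact absurd (low_Reg X _ h3 q le_rfl h2.le) (hX q h)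
      · exact ⟨h, h1, h2, h3⟩
    · rintro ⟨h, h1⟩
      exact ⟨Or.inr h, h1⟩
  unfold Q2 FI
  rw [Reg_union hS hF]
  constructor
  · intro h p hp
    rw [← key p]
    exact h p (Finset.mem_union_right _ hp)
  · intro h p hp
    rcases Finset.mem_union.1 hp with h1 | h1
    · have : (X ∪ F).filter (fun q => p.1 < q.1 ∧ q.2 < p.2 ∧ (q.1, p.2) ∈ Reg S X) = ∅ := by
        rw [Finset.filter_eq_empty_iff]
        rintro q _ ⟨h3, h4, h5⟩
        exact hX p h1 (low_Reg X _ h5 p h3.le le_rfl)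
      rw [this]
      exact hm
    · rw [key p]
      exact h p h1

theorem Fill_disj {C R : Finset ℕ} {X F : Finset (ℕ × ℕ)}
    (hF : F ∈ Fill (C \ X.image Prod.fst) (R \ X.image Prod.snd)) : Disjoint X F := by
  rw [Finset.disjoint_left]
  intro p h1 h2
  have h3 : p.1 ∈ F.image Prod.fst := Finset.mem_image_of_mem _ h2
  rw [(mem_Fill.1 hF).2.2.1] at h3
  exact (Finset.mem_sdiff.1 h3).2 (Finset.mem_image_of_mem _ h1)

theorem union_mem_Fill {C R : Finset ℕ} {X F : Finset (ℕ × ℕ)} (hX1 : X.image Prod.fst ⊆ C)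
    (hX2 : X.image Prod.snd ⊆ R) (hX3 : Set.InjOn Prod.fst (X : Set (ℕ × ℕ)))
    (hX4 : Set.InjOn Prod.snd (X : Set (ℕ × ℕ)))
    (hF : F ∈ Fill (C \ X.image Prod.fst) (R \ X.image Prod.snd)) : X ∪ F ∈ Fill C R := by
  obtain ⟨h1, h2, h3, h4⟩ := mem_Fill.1 hF
  rw [mem_Fill]
  refine ⟨?_, ?_, ?_, ?_⟩
  · rw [Finset.coe_union]
    intro a ha b hb hab
    rcases ha with ha | ha <;> rcases hb with hb | hb
    · exact hX3 ha hb hab
    · exfalso
      have : b.1 ∈ F.image Prod.fst := Finset.mem_image_of_mem _ hb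
      rw [h3, ← hab] at this
      exact (Finset.mem_sdiff.1 this).2 (Finset.mem_image_of_mem _ ha)
    · exfalso
      have : a.1 ∈ F.image Prod.fst := Finset.mem_image_of_mem _ ha
      rw [h3, hab] at this
      exact (Finset.mem_sdiff.1 this).2 (Finset.mem_image_of_mem _ hb)
    · exact h1 ha hb hab
  · rw [Finset.coe_union]
    intro a ha b hb hab
    rcases ha with ha | ha <;> rcases hb with hb | hb
    · exact hX4 ha hb hab
    · exfalso
      have : b.2 ∈ F.image Prod.snd := Finset.mem_image_of_mem _ hb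
      rw [h4, ← hab] at this
      exact (Finset.mem_sdiff.1 this).2 (Finset.mem_image_of_mem _ ha)
    · exfalso
      have : a.2 ∈ F.image Prod.snd := Finset.mem_image_of_mem _ ha
      rw [h4, hab] at this
      exact (Finset.mem_sdiff.1 this).2 (Finset.mem_image_of_mem _ hb)
    · exact h2 ha hb hab
  · rw [Finset.image_union, h3, Finset.union_sdiff_of_subset hX1]
  · rw [Finset.image_union, h4, Finset.union_sdiff_of_subset hX2]

theorem sdiff_mem_Fill {C R : Finset ℕ} {X T : Finset (ℕ × ℕ)} (hT : T ∈ Fill C R) (hX : X ⊆ T) :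
    T \ X ∈ Fill (C \ X.image Prod.fst) (R \ X.image Prod.snd) := by
  obtain ⟨h1, h2, h3, h4⟩ := mem_Fill.1 hT
  rw [mem_Fill]
  refine ⟨h1.mono (by simp), h2.mono (by simp), ?_, ?_⟩
  · ext x
    simp only [Finset.mem_image, Finset.mem_sdiff]
    constructor
    · rintro ⟨q, ⟨hq1, hq2⟩, rfl⟩
      refine ⟨h3 ▸ Finset.mem_image_of_mem _ hq1, ?_⟩
      rintro ⟨q', hq', h⟩
      exact hq2 (h1 (hX hq') hq1 h ▸ hq')
    · rintro ⟨hx, hx2⟩
      rw [← h3] at hx
      obtain ⟨q, hq, rfl⟩ := Finset.mem_image.1 hx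
      exact ⟨q, ⟨hq, fun h => hx2 ⟨q, h, rfl⟩⟩, rfl⟩
  · ext x
    simp only [Finset.mem_image, Finset.mem_sdiff]
    constructor
    · rintro ⟨q, ⟨hq1, hq2⟩, rfl⟩
      refine ⟨h4 ▸ Finset.mem_image_of_mem _ hq1, ?_⟩
      rintro ⟨q', hq', h⟩
      exact hq2 (h2 (hX hq') hq1 h ▸ hq')
    · rintro ⟨hx, hx2⟩
      rw [← h4] at hx
      obtain ⟨q, hq, rfl⟩ := Finset.mem_image.1 hx
      exact ⟨q, ⟨hq, fun h => hx2 ⟨q, h, rfl⟩⟩, rfl⟩

theorem card_of_Fill {C R : Finset ℕ} {T : Finset (ℕ × ℕ)} (hT : T ∈ Fill C R) :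
    C.card = R.card := by
  obtain ⟨h1, h2, h3, h4⟩ := mem_Fill.1 hT
  rw [← h3, ← h4, Finset.card_image_of_injOn h1, Finset.card_image_of_injOn h2]

/-- the fibre of the key: counting with a property `Q` which on the fibre becomes `P` -/
theorem fibre (hS : ∀ K ∈ S, K.Nonempty) {C R : Finset ℕ} {X : Finset (ℕ × ℕ)}
    (hX0 : ∀ p ∈ X, p ∉ Reg S X) (hX1 : X.image Prod.fst ⊆ C)
    (hX2 : X.image Prod.snd ⊆ R) (hX3 : Set.InjOn Prod.fst (X : Set (ℕ × ℕ)))
    (hX4 : Set.InjOn Prod.snd (X : Set (ℕ × ℕ))) (Q P : Finset (ℕ × ℕ) → Prop)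
    (hQP : ∀ F : Finset (ℕ × ℕ), (F : Set (ℕ × ℕ)) ⊆ Reg S X → (Q (X ∪ F) ↔ P F)) :
    (((Fill C R).filter Q).filter fun T => key S T = X).card =
      ((Fill (C \ X.image Prod.fst) (R \ X.image Prod.snd)).filter
        fun F : Finset (ℕ × ℕ) => (F : Set (ℕ × ℕ)) ⊆ Reg S X ∧ P F).card := by
  symm
  refine Finset.card_bij (fun F _ => X ∪ F) ?_ ?_ ?_
  · intro F hF
    simp only [Finset.mem_filter] at hF ⊢
    obtain ⟨h1, h2, h3⟩ := hF
    exact ⟨⟨union_mem_Fill hX1 hX2 hX3 hX4 h1, (hQP F h2).2 h3⟩, key_union hS hX0 h2⟩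
  · intro F hF F' hF' h
    simp only [Finset.mem_filter] at hF hF'
    have d1 := Fill_disj hF.1
    have d2 := Fill_disj hF'.1
    rw [← Finset.union_sdiff_cancel_left d1, ← Finset.union_sdiff_cancel_left d2, h]
  · intro T hT
    simp only [Finset.mem_filter] at hT
    obtain ⟨⟨h1, h2⟩, h3⟩ := hT
    have hXT : X ⊆ T := h3 ▸ Finset.filter_subset _ _
    have hR : Reg S T = Reg S X := by rw [← h3, Reg_key hS]
    have hF : ((T \ X : Finset (ℕ × ℕ)) : Set (ℕ × ℕ)) ⊆ Reg S X := by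
      intro p hp
      rw [Finset.coe_sdiff] at hp
      by_contra hpR
      rw [← hR] at hpR
      apply hp.2
      rw [← h3]
      exact Finset.mem_coe.2 (Finset.mem_filter.2 ⟨hp.1, hpR⟩)
    refine ⟨T \ X, ?_, Finset.union_sdiff_of_subset hXT⟩
    rw [Finset.mem_filter]
    refine ⟨sdiff_mem_Fill h1 hXT, hF, ?_⟩
    rw [← hQP _ hF, Finset.union_sdiff_of_subset hXT]
    exact h2

/-- **the transfer theorem** -/
theorem transfer {m : ℕ} (hm : 0 < m) (hS : ∀ K ∈ S, K.Nonempty) (C R : Finset ℕ) :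
    ((Fill C R).filter (Q1 m S)).card = ((Fill C R).filter (Q2 m S)).card := by
  have key_mem : ∀ T ∈ Fill C R, key S T ∈ (C ×ˢ R).powerset := by
    intro T hT
    rw [Finset.mem_powerset]
    refine (Finset.filter_subset _ _).trans ?_
    exact Finset.mem_powerset.1 (Finset.mem_filter.1 hT).1
  rw [Finset.card_eq_sum_card_fiberwise (f := key S) (t := (C ×ˢ R).powerset)
      (fun T hT => key_mem T (Finset.mem_filter.1 hT).1),
    Finset.card_eq_sum_card_fiberwise (s := (Fill C R).filter (Q2 m S)) (f := key S)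
      (t := (C ×ˢ R).powerset) (fun T hT => key_mem T (Finset.mem_filter.1 hT).1)]
  refine Finset.sum_congr rfl fun X _ => ?_
  by_cases hex : ∃ T ∈ Fill C R, key S T = X
  · obtain ⟨T, hT, hTX⟩ := hex
    have hXT : X ⊆ T := hTX ▸ Finset.filter_subset _ _
    have hR : Reg S T = Reg S X := by rw [← hTX, Reg_key hS]
    have hX0 : ∀ p ∈ X, p ∉ Reg S X := by
      intro p hp
      rw [← hR]
      exact disj_key T p (hTX ▸ hp)
    obtain ⟨h1, h2, h3, h4⟩ := mem_Fill.1 hT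
    have hX1 : X.image Prod.fst ⊆ C := h3 ▸ Finset.image_subset_image hXT
    have hX2 : X.image Prod.snd ⊆ R := h4 ▸ Finset.image_subset_image hXT
    have hX3 : Set.InjOn Prod.fst (X : Set (ℕ × ℕ)) := h1.mono (by exact_mod_cast hXT)
    have hX4 : Set.InjOn Prod.snd (X : Set (ℕ × ℕ)) := h2.mono (by exact_mod_cast hXT)
    rw [fibre hS hX0 hX1 hX2 hX3 hX4 (Q1 m S) (SW m) (fun F hF => Q1_union hS hX0 hF),
      fibre hS hX0 hX1 hX2 hX3 hX4 (Q2 m S) (FI m (Reg S X)) (fun F hF => Q2_union hm hS hX0 hF)]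
    exact count_eq (low_Reg X) _ _ (card_of_Fill (sdiff_mem_Fill hT hXT))
  · have e : ∀ Q : Finset (ℕ × ℕ) → Prop,
        (((Fill C R).filter Q).filter fun T => key S T = X).card = 0 := by
      intro Q
      rw [Finset.card_eq_zero, Finset.filter_eq_empty_iff]
      intro T hT h
      exact hex ⟨T, (Finset.mem_filter.1 hT).1, h⟩
    rw [e, e]

end Pool.Agent.V7H25.Wilf
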